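import Mathlib

/-!
# Baire category in the space `N(C)` of nonexpansive self-maps (MP_55f1f5)

`Nonexp C` with the topology of pointwise convergence is a Baire space when `C` is a closed subset
of a separable Banach space, and an abstract criterion for `F(C)` to be neither meager nor residual.
(The first lemmas are the ones of helper24's file `AffineZeroOne`.)
-/

namespace Pool.Agent.helper1.BF

open Filter Topology Set

/-- `N(C)`: the nonexpansive self-maps of `C`. -/
def Nonexp {X : Type*} [NormedAddCommGroup X] (C : Set X) : Type _ :=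
  {f : C → C // ∀ x y : C, dist (f x) (f y) ≤ dist x y}

/-- The topology of pointwise convergence on `N(C)`. -/
instance {X : Type*} [NormedAddCommGroup X] (C : Set X) : TopologicalSpace (Nonexp C) :=
  TopologicalSpace.induced (fun f : Nonexp C => (f.1 : C → C)) inferInstance

/-- `F(C)`: the maps `f` in `N(C)` for which there is a nonempty, closed, convex, bounded set
`K ⊆ C` with `f(K) ⊆ K`. -/
def InvSet {X : Type*} [NormedAddCommGroup X] [NormedSpace ℝ X] (C : Set X) : Set (Nonexp C) :=
  {f | ∃ K : Set X, K.Nonempty ∧ IsClosed K ∧ Convex ℝ K ∧ Bornology.IsBounded K ∧ K ⊆ C ∧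
    ∀ x : C, (x : X) ∈ K → (f.1 x : X) ∈ K}

variable {X : Type*} [NormedAddCommGroup X] {C : Set X}

theorem continuous_coe : Continuous (fun f : Nonexp C => (f.1 : C → C)) := continuous_induced_dom

theorem continuous_eval (x : C) : Continuous (fun f : Nonexp C => f.1 x) :=
  (continuous_apply x).comp continuous_coe

theorem tendsto_iff {ι : Type*} {l : Filter ι} {u : ι → Nonexp C} {f : Nonexp C} :
    Tendsto u l (𝓝 f) ↔ ∀ x : C, Tendsto (fun i => (u i).1 x) l (𝓝 (f.1 x)) := by
  rw [nhds_induced, tendsto_comap_iff, tendsto_pi_nhds]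
  rfl

/-- Joint continuity of evaluation. -/
theorem continuous_eval_comp {Z : Type*} [TopologicalSpace Z] {F : Z → Nonexp C} {u : Z → C}
    (hF : Continuous F) (hu : Continuous u) : Continuous (fun z => (F z).1 (u z)) := by
  rw [continuous_iff_continuousAt]
  intro z
  unfold ContinuousAt
  rw [tendsto_iff_dist_tendsto_zero]
  have h1 : Tendsto (fun w => dist (u w) (u z)) (𝓝 z) (𝓝 0) :=
    tendsto_iff_dist_tendsto_zero.mp (hu.tendsto z)
  have h2 : Tendsto (fun w => dist ((F w).1 (u z)) ((F z).1 (u z))) (𝓝 z) (𝓝 0) :=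
    tendsto_iff_dist_tendsto_zero.mp (((continuous_eval (u z)).comp hF).tendsto z)
  have h3 := h1.add h2
  rw [add_zero] at h3
  refine squeeze_zero (fun _ => dist_nonneg) (fun w => ?_) h3
  exact (dist_triangle _ ((F w).1 (u z)) _).trans (add_le_add ((F w).2 _ _) le_rfl)

theorem continuous_iter (n : ℕ) (x : C) : Continuous (fun f : Nonexp C => (f.1)^[n] x) := by
  induction n with
  | zero => exact continuous_const
  | succ n ih =>
    simp only [Function.iterate_succ_apply']
    exact continuous_eval_comp continuous_id ih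

theorem dist_iter_le (f : Nonexp C) (n : ℕ) (x y : C) :
    dist ((f.1)^[n] x) ((f.1)^[n] y) ≤ dist x y := by
  induction n with
  | zero => exact le_rfl
  | succ n ih =>
    simp only [Function.iterate_succ_apply']
    exact (f.2 _ _).trans ih

/-- maps whose orbit of `q` stays in the ball of radius `R` around `q` -/
def E (R : ℝ) (q : C) : Set (Nonexp C) := {f | ∀ n, dist ((f.1)^[n] q) q ≤ R}

theorem isClosed_E (R : ℝ) (q : C) : IsClosed (E R q) := by
  have : E R q = ⋂ n, (fun f : Nonexp C => dist ((f.1)^[n] q) q) ⁻¹' Iic R := by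
    ext f
    simp [E]
  rw [this]
  exact isClosed_iInter fun n =>
    isClosed_Iic.preimage ((continuous_iter n q).dist continuous_const)

theorem E_mono_base (R : ℝ) (q p : C) : E R q ⊆ E (R + 2 * dist p q) p := by
  intro f hf n
  calc dist ((f.1)^[n] p) p ≤ dist ((f.1)^[n] p) ((f.1)^[n] q) + dist ((f.1)^[n] q) q + dist q p :=
        dist_triangle4 _ _ _ _
    _ ≤ dist p q + R + dist p q := by
        rw [dist_comm q p]
        gcongr
        · exact dist_iter_le f n p q
        · exact hf n
    _ = R + 2 * dist p q := by ring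

/-- the space `N(C)` is a Baire space for closed nonempty `C` in a separable Banach space -/
theorem baire [CompleteSpace X] [TopologicalSpace.SeparableSpace X] (hcl : IsClosed C)
    (hne : C.Nonempty) : BaireSpace (Nonexp C) := by
  have : CompleteSpace C := hcl.completeSpace_coe
  have : Nonempty C := hne.to_subtype
  have : SecondCountableTopology X := UniformSpace.secondCountable_of_separable X
  have : TopologicalSpace.SeparableSpace C := inferInstance
  set d : ℕ → C := TopologicalSpace.denseSeq C with hd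
  have hdense : DenseRange d := TopologicalSpace.denseRange_denseSeq C
  set r : Nonexp C → (ℕ → C) := fun f n => f.1 (d n) with hr
  have hrc : Continuous r := continuous_pi fun n => continuous_eval (d n)
  -- the key estimate
  have key : ∀ (l : Filter (Nonexp C)) (x : C) (ε : ℝ), 0 < ε → ∀ g : ℕ → C,
      Tendsto r l (𝓝 g) → ∃ n, dist (d n) x < ε / 3 ∧ ∀ᶠ f in l, dist (f.1 (d n)) (g n) < ε / 3 := by
    intro l x ε hε g hg
    obtain ⟨n, hn⟩ := hdense.exists_dist_lt x (by positivity : 0 < ε / 3)
    refine ⟨n, by rwa [dist_comm], ?_⟩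
    have h1 := (tendsto_pi_nhds.mp hg) n
    exact (Metric.tendsto_nhds.mp h1) (ε / 3) (by positivity)
  have hind : IsInducing r := by
    rw [isInducing_iff_nhds]
    intro f
    apply le_antisymm
    · exact hrc.tendsto f |>.le_comap
    · have : Tendsto (fun g : Nonexp C => g) (comap r (𝓝 (r f))) (𝓝 f) := by
        rw [tendsto_iff]
        intro x
        rw [Metric.tendsto_nhds]
        intro ε hε
        obtain ⟨n, hn, hev⟩ := key (comap r (𝓝 (r f))) x ε hε (r f) tendsto_comap
        filter_upwards [hev] with g hg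
        calc dist (g.1 x) (f.1 x) ≤ dist (g.1 x) (g.1 (d n)) + dist (g.1 (d n)) (f.1 (d n))
              + dist (f.1 (d n)) (f.1 x) := dist_triangle4 _ _ _ _
          _ < ε / 3 + ε / 3 + ε / 3 := by
              have h1 := g.2 x (d n)
              have h2 := f.2 (d n) x
              rw [dist_comm x (d n)] at h1
              have h3 : dist (g.1 (d n)) (f.1 (d n)) < ε / 3 := hg
              linarith
          _ = ε := by ring
      exact this
  have hinj : Function.Injective r := by
    intro f g hfg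
    apply Subtype.ext
    have hf : Continuous f.1 := LipschitzWith.continuous (K := 1)
      (LipschitzWith.of_dist_le_mul fun x y => by simpa using f.2 x y)
    have hg : Continuous g.1 := LipschitzWith.continuous (K := 1)
      (LipschitzWith.of_dist_le_mul fun x y => by simpa using g.2 x y)
    exact hdense.equalizer hf hg (funext fun n => congrFun hfg n)
  have hclosed : IsClosed (range r) := by
    apply isClosed_of_closure_subset
    intro g hg
    set l : Filter (Nonexp C) := comap r (𝓝 g) with hl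
    have hlne : l.NeBot := by
      rw [hl, comap_neBot_iff]
      intro t ht
      obtain ⟨z, hz1, f, rfl⟩ := mem_closure_iff_nhds.mp hg t ht
      exact ⟨f, hz1⟩
    have hcau : ∀ x : C, Cauchy (map (fun f : Nonexp C => f.1 x) l) := by
      intro x
      rw [Metric.cauchy_iff]
      refine ⟨inferInstance, fun ε hε => ?_⟩
      obtain ⟨n, hn, hev⟩ := key l x (ε / 2) (by positivity) g tendsto_comap
      refine ⟨(fun f : Nonexp C => f.1 x) '' {f | dist (f.1 (d n)) (g n) < ε / 2 / 3},
        image_mem_map hev, ?_⟩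
      have haux : ∀ f : Nonexp C, dist (f.1 (d n)) (g n) < ε / 2 / 3 →
          dist (f.1 x) (g n) < ε / 3 := by
        intro f hf
        have h1 := dist_triangle (f.1 x) (f.1 (d n)) (g n)
        have h2 := f.2 x (d n)
        rw [dist_comm x (d n)] at h2
        linarith
      rintro _ ⟨f, hf, rfl⟩ _ ⟨f', hf', rfl⟩
      have h1 := haux f hf
      have h2 := haux f' hf'
      have h3 := dist_triangle_right (f.1 x) (f'.1 x) (g n)
      linarith
    choose F hF using fun x : C => CompleteSpace.complete (hcau x)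
    have hF' : ∀ x : C, Tendsto (fun f : Nonexp C => f.1 x) l (𝓝 (F x)) := hF
    refine ⟨⟨F, fun x y => ?_⟩, ?_⟩
    · exact le_of_tendsto ((hF' x).dist (hF' y)) (Eventually.of_forall fun f => f.2 x y)
    · funext n
      change F (d n) = g n
      have h1 : Tendsto (fun f : Nonexp C => f.1 (d n)) l (𝓝 (g n)) :=
        (tendsto_pi_nhds.mp (tendsto_comap : Tendsto r l (𝓝 g))) n
      exact tendsto_nhds_unique (hF' (d n)) h1
  have hemb : IsClosedEmbedding r := ⟨⟨hind, hinj⟩, hclosed⟩
  have : PolishSpace (Nonexp C) := hemb.polishSpace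
  infer_instance

variable [NormedSpace ℝ X]

theorem mem_InvSet_iff (hcl : IsClosed C) (hconv : Convex ℝ C) (q : C) (f : Nonexp C) :
    f ∈ InvSet C ↔ ∃ R : ℝ, f ∈ E R q := by
  constructor
  · rintro ⟨K, ⟨x, hx⟩, -, -, hb, hKC, hinv⟩
    obtain ⟨D, hD⟩ := Metric.isBounded_iff.mp hb
    let x' : C := ⟨x, hKC hx⟩
    have hmem : ∀ n, (((f.1)^[n] x' : C) : X) ∈ K := by
      intro n
      induction n with
      | zero => exact hx
      | succ n ih =>
        rw [Function.iterate_succ_apply']
        exact hinv _ ih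
    refine ⟨D + 2 * dist q x', E_mono_base D x' q ?_⟩
    intro n
    exact hD (hmem n) hx
  · rintro ⟨R, hf⟩
    refine ⟨{y | y ∈ C ∧ ∀ ε : ℝ, 0 < ε → ∀ᶠ n in atTop, dist (((f.1)^[n] q : C) : X) y ≤ R + ε},
      ⟨q, q.2, fun ε hε => Eventually.of_forall fun n => (hf n).trans (by linarith)⟩,
      ?_, ?_, ?_, fun y hy => hy.1, ?_⟩
    · apply isClosed_of_closure_subset
      intro y hy
      refine ⟨hcl.closure_subset_iff.mpr (fun z hz => hz.1) hy, fun ε hε => ?_⟩
      obtain ⟨z, hz, hyz⟩ := Metric.mem_closure_iff.mp hy (ε / 2) (by positivity)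
      filter_upwards [hz.2 (ε / 2) (by positivity)] with n hn
      calc dist (((f.1)^[n] q : C) : X) y ≤ dist (((f.1)^[n] q : C) : X) z + dist z y :=
            dist_triangle _ _ _
        _ ≤ (R + ε / 2) + ε / 2 := by
            rw [dist_comm z y]
            exact add_le_add hn hyz.le
        _ = R + ε := by ring
    · intro y hy z hz a b ha hb hab
      refine ⟨hconv hy.1 hz.1 ha hb hab, fun ε hε => ?_⟩
      filter_upwards [hy.2 ε hε, hz.2 ε hε] with n hn1 hn2
      rw [dist_eq_norm] at hn1 hn2 ⊢
      have : (((f.1)^[n] q : C) : X) - (a • y + b • z) =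
          a • ((((f.1)^[n] q : C) : X) - y) + b • ((((f.1)^[n] q : C) : X) - z) := by
        have h1 : (((f.1)^[n] q : C) : X) = (a + b) • (((f.1)^[n] q : C) : X) := by
          rw [hab, one_smul]
        conv_lhs => rw [h1]
        rw [add_smul, smul_sub, smul_sub]
        abel
      rw [this]
      calc ‖a • ((((f.1)^[n] q : C) : X) - y) + b • ((((f.1)^[n] q : C) : X) - z)‖
          ≤ ‖a • ((((f.1)^[n] q : C) : X) - y)‖ + ‖b • ((((f.1)^[n] q : C) : X) - z)‖ :=
            norm_add_le _ _
        _ = a * ‖(((f.1)^[n] q : C) : X) - y‖ + b * ‖(((f.1)^[n] q : C) : X) - z‖ := by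
            rw [norm_smul, norm_smul, Real.norm_of_nonneg ha, Real.norm_of_nonneg hb]
        _ ≤ a * (R + ε) + b * (R + ε) := by gcongr
        _ = R + ε := by rw [← add_mul, hab, one_mul]
    · rw [Metric.isBounded_iff_subset_closedBall (q : X)]
      refine ⟨R + 1 + R, fun y hy => ?_⟩
      obtain ⟨n, hn⟩ := (hy.2 1 one_pos).exists
      rw [Metric.mem_closedBall]
      calc dist y (q : X) ≤ dist y (((f.1)^[n] q : C) : X) + dist (((f.1)^[n] q : C) : X) q :=
            dist_triangle _ _ _
        _ ≤ (R + 1) + R := by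
            rw [dist_comm y]
            exact add_le_add hn (hf n)
    · intro x hx
      refine ⟨(f.1 x).2, fun ε hε => ?_⟩
      obtain ⟨N, hN⟩ := eventually_atTop.mp (hx.2 ε hε)
      refine eventually_atTop.mpr ⟨N + 1, fun n hn => ?_⟩
      obtain ⟨m, rfl⟩ : ∃ m, n = m + 1 := ⟨n - 1, by omega⟩
      rw [Function.iterate_succ_apply']
      exact (f.2 _ _).trans (hN m (by omega))

/-- the map `x ↦ (1 - s) f x + s c` -/
def mix (hconv : Convex ℝ C) (f : Nonexp C) (c : C) (s : ℝ) (hs0 : 0 ≤ s) (hs1 : s ≤ 1) :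
    Nonexp C :=
  ⟨fun x => ⟨(1 - s) • (f.1 x : X) + s • (c : X),
    hconv (f.1 x).2 c.2 (by linarith) hs0 (by ring)⟩, by
    intro x y
    have h : dist ((1 - s) • (f.1 x : X) + s • (c : X)) ((1 - s) • (f.1 y : X) + s • (c : X)) =
        (1 - s) * dist (f.1 x) (f.1 y) := by
      rw [dist_add_right, dist_smul₀, Real.norm_of_nonneg (by linarith), Subtype.dist_eq]
    change dist ((1 - s) • (f.1 x : X) + s • (c : X)) ((1 - s) • (f.1 y : X) + s • (c : X)) ≤ _
    rw [h]
    calc (1 - s) * dist (f.1 x) (f.1 y) ≤ 1 * dist x y := by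
          gcongr
          · linarith
          · exact f.2 x y
      _ = dist x y := one_mul _⟩

theorem mix_lip (hconv : Convex ℝ C) (f : Nonexp C) (c : C) (s : ℝ) (hs0 : 0 ≤ s) (hs1 : s ≤ 1)
    (x y : C) : dist ((mix hconv f c s hs0 hs1).1 x) ((mix hconv f c s hs0 hs1).1 y) ≤
      (1 - s) * dist x y := by
  have h : dist ((1 - s) • (f.1 x : X) + s • (c : X)) ((1 - s) • (f.1 y : X) + s • (c : X)) =
      (1 - s) * dist (f.1 x) (f.1 y) := by
    rw [dist_add_right, dist_smul₀, Real.norm_of_nonneg (by linarith), Subtype.dist_eq]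
  change dist ((1 - s) • (f.1 x : X) + s • (c : X)) ((1 - s) • (f.1 y : X) + s • (c : X)) ≤ _
  rw [h]
  exact mul_le_mul_of_nonneg_left (f.2 x y) (by linarith)

/-- `mix f c s → f` as `s → 0` -/
theorem mix_tendsto (hconv : Convex ℝ C) (f : Nonexp C) (c : C) :
    Tendsto (fun n : ℕ => mix hconv f c (1 / ((n:ℝ) + 1)) (by positivity)
      (by rw [div_le_one (by positivity)]; linarith [Nat.cast_nonneg (α := ℝ) n])) atTop (𝓝 f) := by
  rw [tendsto_iff]
  intro x
  rw [tendsto_subtype_rng]
  have h0 : Tendsto (fun n : ℕ => 1 / ((n:ℝ) + 1)) atTop (𝓝 0) :=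
    tendsto_one_div_add_atTop_nhds_zero_nat
  have h1 : Tendsto (fun n : ℕ => (1 - 1 / ((n:ℝ) + 1)) • (f.1 x : X) +
      (1 / ((n:ℝ) + 1)) • (c : X)) atTop (𝓝 ((1 - 0 : ℝ) • (f.1 x : X) + (0:ℝ) • (c : X))) :=
    ((tendsto_const_nhds.sub h0).smul tendsto_const_nhds).add (h0.smul tendsto_const_nhds)
  rw [sub_zero, one_smul, zero_smul, add_zero] at h1
  exact h1

/-- ABSTRACT CRITERION. `U` is a nonempty open set inside `F(C)`, and in the nonempty open set `V`
the maps whose orbit of `q` leaves the ball of radius `R` are dense, for every `R`. Then `F(C)` is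
neither meager nor residual. -/
theorem neither [CompleteSpace X] [TopologicalSpace.SeparableSpace X] (hcl : IsClosed C)
    (hconv : Convex ℝ C) (q : C) (U V : Set (Nonexp C)) (hUo : IsOpen U) (hUne : U.Nonempty)
    (hUF : U ⊆ InvSet C) (hVo : IsOpen V) (hVne : V.Nonempty)
    (hV : ∀ R : ℝ, ∀ W : Set (Nonexp C), IsOpen W → W.Nonempty → W ⊆ V → ¬ (W ⊆ E R q)) :
    ¬ IsMeagre (InvSet C) ∧ InvSet C ∉ residual (Nonexp C) := by
  have hB : BaireSpace (Nonexp C) := baire hcl ⟨q, q.2⟩
  constructor
  · intro hm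
    have hmU : IsMeagre U := hm.mono hUF
    have h1 : Dense Uᶜ := dense_of_mem_residual hmU
    obtain ⟨x, hx1, hx2⟩ := h1.inter_open_nonempty U hUo hUne
    exact hx2 hx1
  · intro hres
    -- `V ∩ F` is meagre
    have hmV : IsMeagre (V ∩ InvSet C) := by
      have hsub : V ∩ InvSet C ⊆ ⋃ n : ℕ, V ∩ E (n:ℝ) q := by
        rintro f ⟨hfV, hf⟩
        obtain ⟨R, hR⟩ := (mem_InvSet_iff hcl hconv q f).mp hf
        obtain ⟨n, hn⟩ := exists_nat_ge R
        exact mem_iUnion.mpr ⟨n, hfV, fun k => (hR k).trans hn⟩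
      refine IsMeagre.mono hsub (isMeagre_iUnion fun n => ?_)
      apply IsNowhereDense.isMeagre
      unfold IsNowhereDense
      by_contra hne
      have hne' : (interior (closure (V ∩ E (n:ℝ) q))).Nonempty := nonempty_iff_ne_empty.mpr hne
      -- the interior meets `V`
      have hmeet : (interior (closure (V ∩ E (n:ℝ) q)) ∩ V).Nonempty := by
        obtain ⟨x, hx⟩ := hne'
        obtain ⟨z, hz1, hz2, -⟩ := mem_closure_iff.mp (interior_subset hx) _ isOpen_interior hx
        exact ⟨z, hz1, hz2⟩
      apply hV n _ (isOpen_interior.inter hVo) hmeet inter_subset_right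
      rintro f ⟨hf, -⟩
      have h1 : closure (V ∩ E (n:ℝ) q) ⊆ E (n:ℝ) q :=
        closure_minimal inter_subset_right (isClosed_E _ _)
      exact h1 (interior_subset hf)
    have h2 : (V ∩ InvSet C)ᶜ ∩ InvSet C ∈ residual (Nonexp C) := inter_mem hmV hres
    have h3 : Dense ((V ∩ InvSet C)ᶜ ∩ InvSet C) := dense_of_mem_residual h2
    obtain ⟨x, hx1, hx2, hx3⟩ := h3.inter_open_nonempty V hVo hVne
    exact hx2 ⟨hx1, hx3⟩

end Pool.Agent.helper1.BF
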